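import Pool.Agent.Helper86.UA.U4

set_option autoImplicit false

/-!
# Uniformity in the coefficients: fixed scale
-/

open Finset Filter Topology

namespace Pool.Agent.Helper86.UA

open Pool.Agent.H807R2.Dav hiding KK
open Pool.Agent.Helper86.PS
open Pool.Agent.Helper86.XS
open Pool.Agent.Helper86.DZ

theorem card_EXU (s : ℕ) (hs : 1 ≤ s) (L1 L2 : ℕ) (hL1 : lE s ≤ L1) : ∃ Q0 : ℕ, ∀ Q : ℕ, Q0 ≤ Q →
    ∀ A : ℕ, 1 ≤ A → 4 * A + 1 ≤ Q → ∀ N : ℕ, Q ^ L1 ≤ N → N ≤ Q ^ L2 → ∀ B : PC → ℝ, HW Q ((4 * A + 1) * N) B → ∑ j ∈ fam Q, B j ≤ 3 →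
    ∀ a : Fin s → ℤ, (∀ i, a i ≠ 0) →
    ((EX Q N A a).card : ℝ) ≤ (5 * (A : ℝ)) ^ s * (5000 * (A : ℝ) ^ 2 + (s : ℝ) ^ 2) * ((N : ℝ) ^ s / qq Q ^ 8) := by
  have hsr : (1 : ℝ) ≤ s := by exact_mod_cast hs
  obtain ⟨Q1, hQ1⟩ := l2_main3 s hs (cR s) (L2 + 1) (by
    unfold cR
    have : 0 < 2 * s * (s * (s + 1) + 2) := by positivity
    omega)
  refine ⟨Q1 + 2 ^ 64 + 3, fun Q hQ A hA hA4 N hN1 hN2 B hw hBs a ha => ?_⟩
  have hAr : (1 : ℝ) ≤ A := by exact_mod_cast hA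
  have hQ1' : 1 ≤ Q := by omega
  have hQr : (1 : ℝ) ≤ Q := by exact_mod_cast hQ1'
  obtain ⟨q, hq⟩ : ∃ q : ℝ, q = qq Q := ⟨_, rfl⟩
  have hq1 : 1 ≤ q := by rw [hq]; exact qq_ge hQ1'
  have hq2 : 2 ≤ q := by
    rw [hq]
    unfold qq
    have h1 : ((2 : ℝ) ^ 64) ^ (1 / 64 : ℝ) = 2 := by
      rw [← Real.rpow_natCast, ← Real.rpow_mul (by norm_num)]
      norm_num
    rw [← h1]
    apply Real.rpow_le_rpow (by positivity) _ (by norm_num)
    have : 2 ^ 64 ≤ Q := by omega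
    exact_mod_cast this
  have hq0 : 0 < q := by linarith
  have h40 : 40 ≤ lE s := by unfold lE; omega
  have hQN : ∀ n : ℕ, n ≤ L1 → Q ^ n ≤ N := fun n hn => (Nat.pow_le_pow_right (by omega) hn).trans hN1
  have hQN1 : Q ≤ N := by simpa using hQN 1 (by omega)
  have hQNr : (Q : ℝ) ≤ N := by exact_mod_cast hQN1
  have hN1' : (1 : ℝ) ≤ N := by linarith
  have hN0 : (0 : ℝ) < N := by linarith
  obtain ⟨M, hM⟩ : ∃ M : ℕ, M = (4 * A + 1) * N := ⟨_, rfl⟩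
  have hNM : N ≤ M := by rw [hM]; nlinarith [Nat.zero_le A]
  have hMQ : M ≤ Q ^ (L2 + 1) := by
    calc M ≤ Q * N := by rw [hM]; exact Nat.mul_le_mul_right _ (by omega)
      _ ≤ Q * Q ^ L2 := Nat.mul_le_mul_left _ hN2
      _ = Q ^ (L2 + 1) := by ring
  have hMr : (M : ℝ) ≤ 5 * A * N := by
    rw [hM]; push_cast
    nlinarith
  rw [← hM] at hw
  obtain ⟨j, hj⟩ : ∃ j : ℝ, j = ((bJ A N).card : ℝ) := ⟨_, rfl⟩
  have hjv : j = 4 * A * N + 1 := by rw [hj, card_bJ]; push_cast; ring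
  have hAN : (N : ℝ) ≤ A * N := by nlinarith
  have hjN : (N : ℝ) ≤ j := by rw [hjv]; nlinarith
  have hj5 : j ≤ 5 * A * N := by rw [hjv]; linarith
  -- one interval
  have hone : ∀ k ∈ kJ Q ×ˢ kJ Q, (((Bx s (bJ A N)).filter (fun h =>
      (N : ℝ) / qq Q ^ 4 < ‖DI Q M a h (k.1 * cellG Q N) (k.2 * cellG Q N)‖)).card : ℝ) ≤
        (5 * (A : ℝ)) ^ s * 200 * (A : ℝ) ^ 2 * ((N : ℝ) ^ s / q ^ 16) := by
    intro k hk
    have hl2 := hQ1 Q (by omega) M ((Nat.pow_le_pow_right (by omega) (by unfold lE at hL1; omega)).trans (hN1.trans hNM)) hMQ B hw hBs a ha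
      (Ico (k.1 * cellG Q N) (k.2 * cellG Q N)) (bJ A N)
    have hmk := markov (Bx s (bJ A N)) (fun h => ‖DI Q M a h (k.1 * cellG Q N) (k.2 * cellG Q N)‖)
      (l := (N : ℝ) / qq Q ^ 4) (by
        rw [← hq]; positivity)
    have hrp : (Q : ℝ) ^ (-(3 / 8) : ℝ) = 1 / q ^ 24 := by
      have h1 : q ^ 24 = (Q : ℝ) ^ (3 / 8 : ℝ) := by
        rw [hq]
        unfold qq
        rw [← Real.rpow_natCast, ← Real.rpow_mul (by linarith)]
        norm_num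
      rw [h1, Real.rpow_neg (by linarith), one_div]
    rw [hrp, ← hj] at hl2
    refine count_step (j := j) (lam := (N : ℝ) / qq Q ^ 4) (Ic := ((Ico (k.1 * (cellG Q N : ℤ)) (k.2 * cellG Q N)).card : ℝ))
      (Mr := M) (q := q) hq1 hN1' hAr hjN hj5 hMr (Nat.cast_nonneg _) ?_ (Nat.cast_nonneg _) (Nat.cast_nonneg _) (by rw [hq]) ?_
    · rw [mem_product] at hk
      unfold kJ at hk
      rw [mem_Icc, mem_Icc] at hk
      obtain ⟨⟨hk1, hk1'⟩, hk2, hk2'⟩ := hk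
      have hKG : KK Q * cellG Q N ≤ 2 * N := by
        have hK : KK Q ≤ N := by
          have h1 := KK_le hQ1'
          have h2 := qq_le hQ1' (n := 4) (by norm_num)
          have : (KK Q : ℝ) ≤ N := by linarith
          exact_mod_cast this
        have e1 : KK Q * cellG Q N = KK Q * (N / KK Q) + KK Q := by unfold cellG; ring
        have e2 := Nat.mul_div_le N (KK Q)
        omega
      have h1 : k.2 * (cellG Q N : ℤ) - k.1 * cellG Q N ≤ 8 * N := by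
        have e1 : k.2 * (cellG Q N : ℤ) - k.1 * cellG Q N = (k.2 - k.1) * cellG Q N := by ring
        rw [e1]
        have e2 : (k.2 - k.1) * (cellG Q N : ℤ) ≤ (4 * KK Q) * cellG Q N :=
          mul_le_mul_of_nonneg_right (by linarith) (Int.natCast_nonneg _)
        have e3 : (KK Q : ℤ) * cellG Q N ≤ 2 * N := by exact_mod_cast hKG
        linarith
      rw [Int.card_Ico]
      have h2 : (k.2 * (cellG Q N : ℤ) - k.1 * cellG Q N).toNat ≤ 8 * N := by omega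
      exact_mod_cast h2
    · refine le_trans ?_ hl2
      exact mul_le_mul_of_nonneg_left hmk (by linarith)
  -- proportional forms
  have hprop : (((Bx s (bJ A N)).filter (fun h => Del a h = 0)).card : ℝ) ≤ (5 * (A : ℝ)) ^ s * (s : ℝ) ^ 2 * ((N : ℝ) ^ s / q ^ 8) := by
    have h1 := card_Del ha (bJ A N)
    have h2 : (((Bx s (bJ A N)).filter (fun h => Del a h = 0)).card : ℝ) * j ≤ s * s * j ^ s := by
      rw [hj]; exact_mod_cast h1
    have h3 : (((Bx s (bJ A N)).filter (fun h => Del a h = 0)).card : ℝ) * N ≤ s * s * (5 * A * N) ^ s := by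
      refine le_trans (mul_le_mul_of_nonneg_left hjN (Nat.cast_nonneg _)) (h2.trans ?_)
      apply mul_le_mul_of_nonneg_left _ (by positivity)
      exact pow_le_pow_left₀ (by linarith) hj5 s
    have h4 : (((Bx s (bJ A N)).filter (fun h => Del a h = 0)).card : ℝ) ≤ s * s * (5 * A * N) ^ s / N := by
      rw [le_div_iff₀ hN0]; exact h3
    refine h4.trans ?_
    have h5 : (s : ℝ) * s * (5 * A * N) ^ s / N ≤ s * s * (5 * A * N) ^ s / q ^ 8 := by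
      apply div_le_div_of_nonneg_left (by positivity) (by positivity)
      rw [hq]
      exact (qq_le hQ1' (by norm_num)).trans hQNr
    refine h5.trans (le_of_eq ?_)
    rw [mul_pow (5 * (A : ℝ)) N s]
    ring
  -- all together
  classical
  have hsub : EX Q N A a ⊆ (Bx s (bJ A N)).filter (fun h => Del a h = 0) ∪
      (kJ Q ×ˢ kJ Q).biUnion fun k => (Bx s (bJ A N)).filter (fun h =>
        (N : ℝ) / qq Q ^ 4 < ‖DI Q M a h (k.1 * cellG Q N) (k.2 * cellG Q N)‖) := by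
    intro h hh
    unfold EX at hh
    rw [mem_filter] at hh
    rcases hh.2 with h1 | ⟨k, hk, hk2⟩
    · exact mem_union_left _ (mem_filter.2 ⟨hh.1, h1⟩)
    · apply mem_union_right
      rw [mem_biUnion]
      exact ⟨k, hk, mem_filter.2 ⟨hh.1, by rw [hM]; exact hk2⟩⟩
  have hcard := (card_le_card hsub).trans ((card_union_le _ _).trans (Nat.add_le_add_left card_biUnion_le _))
  have hcardr : ((EX Q N A a).card : ℝ) ≤ (((Bx s (bJ A N)).filter (fun h => Del a h = 0)).card : ℝ) +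
      ∑ k ∈ kJ Q ×ˢ kJ Q, (((Bx s (bJ A N)).filter (fun h =>
        (N : ℝ) / qq Q ^ 4 < ‖DI Q M a h (k.1 * cellG Q N) (k.2 * cellG Q N)‖)).card : ℝ) := by
    exact_mod_cast hcard
  refine hcardr.trans ?_
  have hsum : ∑ k ∈ kJ Q ×ˢ kJ Q, (((Bx s (bJ A N)).filter (fun h =>
        (N : ℝ) / qq Q ^ 4 < ‖DI Q M a h (k.1 * cellG Q N) (k.2 * cellG Q N)‖)).card : ℝ) ≤
      (5 * (A : ℝ)) ^ s * 5000 * (A : ℝ) ^ 2 * ((N : ℝ) ^ s / q ^ 8) := by
    refine (sum_le_sum hone).trans ?_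
    rw [sum_const, nsmul_eq_mul, card_product, card_kJ]
    have hK : (((4 * KK Q + 1) * (4 * KK Q + 1) : ℕ) : ℝ) ≤ 25 * q ^ 8 := by
      have h1 := KK_le hQ1'
      rw [← hq] at h1
      have h2 : (4 * (KK Q : ℝ) + 1) ≤ 5 * q ^ 4 := by
        have : 1 ≤ q ^ 4 := one_le_pow₀ hq1
        linarith
      push_cast
      calc (4 * (KK Q : ℝ) + 1) * (4 * KK Q + 1) ≤ (5 * q ^ 4) * (5 * q ^ 4) := mul_le_mul h2 h2 (by positivity) (by positivity)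
        _ = 25 * q ^ 8 := by ring
    calc _ ≤ (25 * q ^ 8) * ((5 * (A : ℝ)) ^ s * 200 * (A : ℝ) ^ 2 * ((N : ℝ) ^ s / q ^ 16)) :=
          mul_le_mul_of_nonneg_right hK (by positivity)
      _ = _ := by
        field_simp
        ring
  refine (add_le_add hprop hsum).trans (le_of_eq ?_)
  rw [← hq]
  ring


theorem fixed_scaleXU (s : ℕ) (hs : 1 ≤ s) {ε : ℝ} (hε0 : 0 < ε) (hε1 : ε ≤ 1) (L1 L2 : ℕ)
    (hL1 : lE s ≤ L1) (hL1κ : 160 * (s : ℝ) ≤ ε * L1) (hL2 : 1 ≤ L2) : ∃ Q0 : ℕ, ∀ Q : ℕ, Q0 ≤ Q →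
    ∀ A : ℕ, 1 ≤ A → (A + 1) ^ (64 * (s + 2) ^ 2) ≤ Q → ∀ N : ℕ, Q ^ L1 ≤ N → N ≤ Q ^ L2 → ∀ B : PC → ℝ, ∀ X : Finset PC, HX Q ((4 * A + 1) * N) B X → (∀ j ∈ X, j.2 ^ 2 = 1) →
    ∀ ε' : ℝ, ∑ j ∈ fam Q, B j ≤ ε' → (3 + ε') ^ s - 3 ^ s ≤ ε / 80 → ε' ≤ 1 →
    ∀ K0 : ℕ, 8 ≤ K0 → 2 * s ≤ K0 → (4 * s / (ε / 10 / (8 * 3 ^ s))) ^ 2 ≤ K0 →
    PSPX s A ε (1 / (64 * L2)) (fun a h => ∀ j ∈ X, ¬ ((j.1 + 1 : ℕ) : ℤ) ∣ (K0.factorial : ℤ) * (Del a h * ∏ i, a i)) N := by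
  have hL2r : (1 : ℝ) ≤ L2 := by exact_mod_cast hL2
  obtain ⟨C3, hC3⟩ : ∃ C3 : ℝ, C3 = 5 ^ s * (5000 + (s : ℝ) ^ 2) := ⟨_, rfl⟩
  have hC30 : 0 ≤ C3 := by rw [hC3]; positivity
  obtain ⟨Q1, hQ1⟩ := card_EXU s hs L1 L2 hL1
  obtain ⟨Q2, hQ2⟩ := per_hXU s hs (κ := ε / 10) (by positivity) (by linarith) L1 L2 hL1 (by linarith)
  obtain ⟨Q3, hQ3⟩ := ev_log C3 0 (a := 1 / 64) (by norm_num)
  refine ⟨Q1 + Q2 + Q3 + 3, fun Q hQ A hA hAQ N hN1 hN2 B X hw hX2 ε' hBs hε' hε'1 K0 hK8 hKs hKρ => ?_⟩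
  intro a haa
  have ha : ∀ i, a i ≠ 0 := fun i => (haa i).1
  have haA : ∀ i, |a i| ≤ A := fun i => (haa i).2
  have hQ1' : 1 ≤ Q := by omega
  have hQr : (1 : ℝ) ≤ Q := by exact_mod_cast hQ1'
  obtain ⟨q, hq⟩ : ∃ q : ℝ, q = qq Q := ⟨_, rfl⟩
  have hq1 : 1 ≤ q := by rw [hq]; exact qq_ge hQ1'
  have hq0 : 0 < q := by linarith
  have hC3q : C3 ≤ q := by
    have := hQ3 Q (by omega)
    rw [pow_zero, mul_one] at this
    rw [hq]
    exact this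
  have hAr : (1 : ℝ) ≤ A := by exact_mod_cast hA
  obtain ⟨C2, hC2⟩ : ∃ C2 : ℝ, C2 = (5 * (A : ℝ)) ^ s * (5000 * (A : ℝ) ^ 2 + (s : ℝ) ^ 2) := ⟨_, rfl⟩
  have hC20 : 0 ≤ C2 := by rw [hC2]; positivity
  have hC2q : C2 ≤ q ^ 2 := by
    have e1 : ((A : ℝ) + 1) ^ (s + 2) ≤ q := by
      rw [hq]
      apply AS_qq hAQ
      nlinarith
    have e2 : C2 ≤ C3 * ((A : ℝ) + 1) ^ (s + 2) := by
      rw [hC2, hC3, mul_pow]
      have e3 : (A : ℝ) ^ s ≤ ((A : ℝ) + 1) ^ s := pow_le_pow_left₀ (by linarith) (by linarith) s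
      have e4 : 5000 * (A : ℝ) ^ 2 + (s : ℝ) ^ 2 ≤ (5000 + (s : ℝ) ^ 2) * ((A : ℝ) + 1) ^ 2 := by
        have f1 : (A : ℝ) ^ 2 ≤ ((A : ℝ) + 1) ^ 2 := pow_le_pow_left₀ (by linarith) (by linarith) 2
        have f2 : (1 : ℝ) ≤ ((A : ℝ) + 1) ^ 2 := one_le_pow₀ (by linarith)
        have f3 : (s : ℝ) ^ 2 * 1 ≤ (s : ℝ) ^ 2 * ((A : ℝ) + 1) ^ 2 := mul_le_mul_of_nonneg_left f2 (by positivity)
        linarith
      calc (5 : ℝ) ^ s * (A : ℝ) ^ s * (5000 * (A : ℝ) ^ 2 + (s : ℝ) ^ 2) ≤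
          5 ^ s * ((A : ℝ) + 1) ^ s * ((5000 + (s : ℝ) ^ 2) * ((A : ℝ) + 1) ^ 2) := by gcongr
        _ = _ := by rw [pow_add]; ring
    calc C2 ≤ C3 * ((A : ℝ) + 1) ^ (s + 2) := e2
      _ ≤ q * q := mul_le_mul hC3q e1 (by positivity) hq0.le
      _ = q ^ 2 := by ring
  have hA4 : 4 * A + 1 ≤ Q := by
    have h1 := AS_pow hAQ (n := 3) (by
      have : 0 < (s + 2) ^ 2 := by positivity
      omega)
    have h2 : 4 * A + 1 ≤ (A + 1) ^ 3 := by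
      have e1 : (A + 1) ^ 3 = A * (A * A) + 3 * (A * A) + 3 * A + 1 := by ring
      have e2 : A ≤ A * A := Nat.le_mul_self A
      rw [e1]
      omega
    exact h2.trans h1
  have hNpos : 0 < N := lt_of_lt_of_le (by positivity) hN1
  have hN0 : (0 : ℝ) < N := by exact_mod_cast hNpos
  have hN1r : (1 : ℝ) ≤ N := by exact_mod_cast hNpos
  obtain ⟨δ, hδ⟩ : ∃ δ : ℝ, δ = 1 / (64 * L2) := ⟨_, rfl⟩
  rw [← hδ]
  have hδ0 : 0 < δ := by rw [hδ]; positivity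
  have hNδ : (N : ℝ) ^ δ ≤ q := by
    have h1 : (N : ℝ) ^ δ ≤ ((Q : ℝ) ^ L2) ^ δ := by
      apply Real.rpow_le_rpow hN0.le _ hδ0.le
      exact_mod_cast hN2
    refine h1.trans (le_of_eq ?_)
    rw [hq, ← Real.rpow_natCast, ← Real.rpow_mul (by linarith)]
    unfold qq
    congr 1
    rw [hδ]
    field_simp
  have hNδ0 : 0 < (N : ℝ) ^ δ := Real.rpow_pos_of_pos hN0 _
  obtain ⟨E, hE1, hE2⟩ := lines hs ha A N (EX Q N A a)
  refine ⟨E, ?_, ?_⟩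
  · have h1 := hQ1 Q (by omega) A hA hA4 N hN1 hN2 _ (HX_HW hw) (HX_sum hw (hBs.trans hε'1)) a ha
    rw [← hC2, ← hq] at h1
    have h2 : (E.card : ℝ) * N ≤ C2 * ((N : ℝ) ^ s / q ^ 8) := by
      refine le_trans ?_ h1
      exact_mod_cast hE1
    have h3 : C2 * ((N : ℝ) ^ s / q ^ 8) ≤ (N : ℝ) ^ s / (N : ℝ) ^ δ := by
      have e1 : C2 * ((N : ℝ) ^ s / q ^ 8) ≤ q ^ 2 * ((N : ℝ) ^ s / q ^ 8) := mul_le_mul_of_nonneg_right hC2q (by positivity)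
      refine e1.trans ?_
      have e2 : q ^ 2 * ((N : ℝ) ^ s / q ^ 8) = (N : ℝ) ^ s / q ^ 6 := by field_simp
      rw [e2]
      apply div_le_div_of_nonneg_left (by positivity) hNδ0
      exact hNδ.trans (le_self_pow₀ hq1 (by norm_num))
    have h4 : (N : ℝ) ^ ((s : ℝ) - 1 - δ) = (N : ℝ) ^ s / (N : ℝ) ^ δ / N := by
      rw [Real.rpow_sub hN0, Real.rpow_sub hN0, Real.rpow_one, Real.rpow_natCast]
      field_simp
    rw [h4, le_div_iff₀ hN0]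
    linarith
  · intro h hh hne hadm hnd
    obtain ⟨t, ht0, htN, htE⟩ := hE2 h hh hne
    obtain ⟨h', hh'⟩ : ∃ h' : Fin s → ℤ, h' = h + t • a := ⟨_, rfl⟩
    rw [← hh'] at htE
    have hnu : ∀ p : ℕ, p.Prime → nuP a h' p = nuP a h p := fun p hp => by rw [hh']; exact nuP_translate a h t hp.pos
    have hadm' : ∀ p : ℕ, p.Prime → nuP a h' p < p := fun p hp => by rw [hnu p hp]; exact hadm p hp
    have hh'b : ∀ i, |h' i| ≤ 2 * A * N := by
      intro i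
      have e1 : h' i = h i + t * a i := by rw [hh']; simp
      rw [e1]
      refine (abs_add_le _ _).trans ?_
      rw [abs_mul, abs_of_nonneg ht0]
      have e2 : t * |a i| ≤ N * A := mul_le_mul htN.le (haA i) (abs_nonneg _) (Int.natCast_nonneg _)
      have e3 := hh i
      linarith
    have hbox : h' ∈ Bx s (bJ A N) := by
      unfold Bx bJ
      rw [Fintype.mem_piFinset]
      intro i
      rw [mem_Icc]
      exact abs_le.1 (hh'b i)
    have hΔ' : Del a h' ≠ 0 := by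
      intro hc
      apply htE
      unfold EX
      rw [mem_filter]
      exact ⟨hbox, Or.inl hc⟩
    have hDI : ∀ k1 k2 : ℤ, |k1| ≤ 2 * KK Q → |k2| ≤ 2 * KK Q →
        ‖DI Q ((4 * A + 1) * N) a h' (k1 * cellG Q N) (k2 * cellG Q N)‖ ≤ N / qq Q ^ 4 := by
      intro k1 k2 hk1 hk2
      by_contra hc
      push Not at hc
      apply htE
      unfold EX
      rw [mem_filter]
      refine ⟨hbox, Or.inr ⟨(k1, k2), ?_, hc⟩⟩
      rw [mem_product]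
      unfold kJ
      rw [mem_Icc, mem_Icc]
      exact ⟨abs_le.1 hk1, abs_le.1 hk2⟩
    obtain ⟨S, hS⟩ := exists_facP ha hΔ' hadm'
    refine ⟨S, ?_, ?_⟩
    · have : (fun p : Nat.Primes => facP a h (p : ℕ)) = (fun p : Nat.Primes => facP a h' (p : ℕ)) := by
        funext p
        unfold facP
        rw [hnu p p.2]
      rw [this]
      exact hS
    · intro u v hu hv hW hpos
      have h1 := hQ2 Q (by omega) A hAQ N hN1 hN2 B X hw hX2 ε' hBs (by linarith) K0 hK8 hKs hKρ a h' ha haA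
        hh'b hΔ' (by rw [hh', Del_translate]; exact hnd) hadm' hDI S hS (u - t) (v - t)
        (by linarith) (by linarith) (by
          have e1 : v - t - (u - t) = v - u := by ring
          rw [e1]
          refine le_trans ?_ hW
          have e2 : (N : ℝ) ^ (1 - δ) = N / (N : ℝ) ^ δ := by rw [Real.rpow_sub hN0, Real.rpow_one]
          rw [e2, ← hq]
          exact div_le_div_of_nonneg_left hN0.le hNδ0 hNδ) (by
          intro n hn i
          rw [mem_Ico] at hn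
          have e1 : a i * n + h' i = a i * (n + t) + h i := by
            rw [hh']; simp only [Pi.add_apply, Pi.smul_apply, smul_eq_mul]; ring
          rw [e1]
          exact hpos (n + t) (mem_Ico.2 ⟨by omega, by omega⟩) i)
      have e1 : v - t - (u - t) = v - u := by ring
      rw [e1] at h1
      rw [pc_translate a h t u v, ← hh']
      have e2 : 10 * (ε / 10) = ε := by ring
      rw [e2] at h1
      exact h1

theorem fixed_scaleLU (s : ℕ) (hs : 1 ≤ s) (L1 L2 : ℕ)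
    (hL1 : lE s ≤ L1) (hL2 : 1 ≤ L2) : ∃ Q0 : ℕ, ∀ Q : ℕ, Q0 ≤ Q →
    ∀ A : ℕ, 1 ≤ A → (A + 1) ^ (64 * (s + 2) ^ 2) ≤ Q → ∀ N : ℕ, Q ^ L1 ≤ N → N ≤ Q ^ L2 → ∀ B : PC → ℝ, ∀ j1 : PC, ∀ g : ℝ, HD Q ((4 * A + 1) * N) B j1 g → j1.2 ^ 2 = 1 → 0 ≤ g → g ≤ 1 →
    ∀ ε' : ℝ, ∑ j ∈ fam Q, B j ≤ ε' → ε' ≤ 1 → 2 * ε' ≤ g → (3 + ε') ^ s - 3 ^ s ≤ (g / 2) ^ s / 16 →
    1 ≤ (g / 2) ^ s * qq Q → PSPL s A ((g / 2) ^ s / 2 ^ (s + 3)) (1 / (64 * L2)) N := by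
  have hL2r : (1 : ℝ) ≤ L2 := by exact_mod_cast hL2
  obtain ⟨C3, hC3⟩ : ∃ C3 : ℝ, C3 = 5 ^ s * (5000 + (s : ℝ) ^ 2) := ⟨_, rfl⟩
  have hC30 : 0 ≤ C3 := by rw [hC3]; positivity
  obtain ⟨Q1, hQ1⟩ := card_EXU s hs L1 L2 hL1
  obtain ⟨Q2, hQ2⟩ := per_hLU s hs L1 L2 hL1
  obtain ⟨Q3, hQ3⟩ := ev_log C3 0 (a := 1 / 64) (by norm_num)
  refine ⟨Q1 + Q2 + Q3 + 3, fun Q hQ A hA hAQ N hN1 hN2 B j1 g hw hj12 hg0 hg1 ε' hBs hε1 hε2 hε' hθq => ?_⟩
  intro a haa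
  have ha : ∀ i, a i ≠ 0 := fun i => (haa i).1
  have haA : ∀ i, |a i| ≤ A := fun i => (haa i).2
  have hQ1' : 1 ≤ Q := by omega
  have hQr : (1 : ℝ) ≤ Q := by exact_mod_cast hQ1'
  obtain ⟨q, hq⟩ : ∃ q : ℝ, q = qq Q := ⟨_, rfl⟩
  have hq1 : 1 ≤ q := by rw [hq]; exact qq_ge hQ1'
  have hq0 : 0 < q := by linarith
  have hC3q : C3 ≤ q := by
    have := hQ3 Q (by omega)
    rw [pow_zero, mul_one] at this
    rw [hq]
    exact this
  have hAr : (1 : ℝ) ≤ A := by exact_mod_cast hA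
  obtain ⟨C2, hC2⟩ : ∃ C2 : ℝ, C2 = (5 * (A : ℝ)) ^ s * (5000 * (A : ℝ) ^ 2 + (s : ℝ) ^ 2) := ⟨_, rfl⟩
  have hC20 : 0 ≤ C2 := by rw [hC2]; positivity
  have hC2q : C2 ≤ q ^ 2 := by
    have e1 : ((A : ℝ) + 1) ^ (s + 2) ≤ q := by
      rw [hq]
      apply AS_qq hAQ
      nlinarith
    have e2 : C2 ≤ C3 * ((A : ℝ) + 1) ^ (s + 2) := by
      rw [hC2, hC3, mul_pow]
      have e3 : (A : ℝ) ^ s ≤ ((A : ℝ) + 1) ^ s := pow_le_pow_left₀ (by linarith) (by linarith) s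
      have e4 : 5000 * (A : ℝ) ^ 2 + (s : ℝ) ^ 2 ≤ (5000 + (s : ℝ) ^ 2) * ((A : ℝ) + 1) ^ 2 := by
        have f1 : (A : ℝ) ^ 2 ≤ ((A : ℝ) + 1) ^ 2 := pow_le_pow_left₀ (by linarith) (by linarith) 2
        have f2 : (1 : ℝ) ≤ ((A : ℝ) + 1) ^ 2 := one_le_pow₀ (by linarith)
        have f3 : (s : ℝ) ^ 2 * 1 ≤ (s : ℝ) ^ 2 * ((A : ℝ) + 1) ^ 2 := mul_le_mul_of_nonneg_left f2 (by positivity)
        linarith
      calc (5 : ℝ) ^ s * (A : ℝ) ^ s * (5000 * (A : ℝ) ^ 2 + (s : ℝ) ^ 2) ≤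
          5 ^ s * ((A : ℝ) + 1) ^ s * ((5000 + (s : ℝ) ^ 2) * ((A : ℝ) + 1) ^ 2) := by gcongr
        _ = _ := by rw [pow_add]; ring
    calc C2 ≤ C3 * ((A : ℝ) + 1) ^ (s + 2) := e2
      _ ≤ q * q := mul_le_mul hC3q e1 (by positivity) hq0.le
      _ = q ^ 2 := by ring
  have hA4 : 4 * A + 1 ≤ Q := by
    have h1 := AS_pow hAQ (n := 3) (by
      have : 0 < (s + 2) ^ 2 := by positivity
      omega)
    have h2 : 4 * A + 1 ≤ (A + 1) ^ 3 := by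
      have e1 : (A + 1) ^ 3 = A * (A * A) + 3 * (A * A) + 3 * A + 1 := by ring
      have e2 : A ≤ A * A := Nat.le_mul_self A
      rw [e1]
      omega
    exact h2.trans h1
  have hNpos : 0 < N := lt_of_lt_of_le (by positivity) hN1
  have hN0 : (0 : ℝ) < N := by exact_mod_cast hNpos
  have hN1r : (1 : ℝ) ≤ N := by exact_mod_cast hNpos
  obtain ⟨δ, hδ⟩ : ∃ δ : ℝ, δ = 1 / (64 * L2) := ⟨_, rfl⟩
  rw [← hδ]
  have hδ0 : 0 < δ := by rw [hδ]; positivity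
  have hNδ : (N : ℝ) ^ δ ≤ q := by
    have h1 : (N : ℝ) ^ δ ≤ ((Q : ℝ) ^ L2) ^ δ := by
      apply Real.rpow_le_rpow hN0.le _ hδ0.le
      exact_mod_cast hN2
    refine h1.trans (le_of_eq ?_)
    rw [hq, ← Real.rpow_natCast, ← Real.rpow_mul (by linarith)]
    unfold qq
    congr 1
    rw [hδ]
    field_simp
  have hNδ0 : 0 < (N : ℝ) ^ δ := Real.rpow_pos_of_pos hN0 _
  obtain ⟨E, hE1, hE2⟩ := lines hs ha A N (EX Q N A a)
  refine ⟨E, ?_, ?_⟩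
  · have h1 := hQ1 Q (by omega) A hA hA4 N hN1 hN2 _ (HX_HW (HD_HX hg0 hw)) (HX_sum (HD_HX hg0 hw) (hBs.trans hε1)) a ha
    rw [← hC2, ← hq] at h1
    have h2 : (E.card : ℝ) * N ≤ C2 * ((N : ℝ) ^ s / q ^ 8) := by
      refine le_trans ?_ h1
      exact_mod_cast hE1
    have h3 : C2 * ((N : ℝ) ^ s / q ^ 8) ≤ (N : ℝ) ^ s / (N : ℝ) ^ δ := by
      have e1 : C2 * ((N : ℝ) ^ s / q ^ 8) ≤ q ^ 2 * ((N : ℝ) ^ s / q ^ 8) := mul_le_mul_of_nonneg_right hC2q (by positivity)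
      refine e1.trans ?_
      have e2 : q ^ 2 * ((N : ℝ) ^ s / q ^ 8) = (N : ℝ) ^ s / q ^ 6 := by field_simp
      rw [e2]
      apply div_le_div_of_nonneg_left (by positivity) hNδ0
      exact hNδ.trans (le_self_pow₀ hq1 (by norm_num))
    have h4 : (N : ℝ) ^ ((s : ℝ) - 1 - δ) = (N : ℝ) ^ s / (N : ℝ) ^ δ / N := by
      rw [Real.rpow_sub hN0, Real.rpow_sub hN0, Real.rpow_one, Real.rpow_natCast]
      field_simp
    rw [h4, le_div_iff₀ hN0]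
    linarith
  · intro h hh hne hadm
    obtain ⟨t, ht0, htN, htE⟩ := hE2 h hh hne
    obtain ⟨h', hh'⟩ : ∃ h' : Fin s → ℤ, h' = h + t • a := ⟨_, rfl⟩
    rw [← hh'] at htE
    have hnu : ∀ p : ℕ, p.Prime → nuP a h' p = nuP a h p := fun p hp => by rw [hh']; exact nuP_translate a h t hp.pos
    have hadm' : ∀ p : ℕ, p.Prime → nuP a h' p < p := fun p hp => by rw [hnu p hp]; exact hadm p hp
    have hh'b : ∀ i, |h' i| ≤ 2 * A * N := by
      intro i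
      have e1 : h' i = h i + t * a i := by rw [hh']; simp
      rw [e1]
      refine (abs_add_le _ _).trans ?_
      rw [abs_mul, abs_of_nonneg ht0]
      have e2 : t * |a i| ≤ N * A := mul_le_mul htN.le (haA i) (abs_nonneg _) (Int.natCast_nonneg _)
      have e3 := hh i
      linarith
    have hbox : h' ∈ Bx s (bJ A N) := by
      unfold Bx bJ
      rw [Fintype.mem_piFinset]
      intro i
      rw [mem_Icc]
      exact abs_le.1 (hh'b i)
    have hΔ' : Del a h' ≠ 0 := by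
      intro hc
      apply htE
      unfold EX
      rw [mem_filter]
      exact ⟨hbox, Or.inl hc⟩
    have hDI : ∀ k1 k2 : ℤ, |k1| ≤ 2 * KK Q → |k2| ≤ 2 * KK Q →
        ‖DI Q ((4 * A + 1) * N) a h' (k1 * cellG Q N) (k2 * cellG Q N)‖ ≤ N / qq Q ^ 4 := by
      intro k1 k2 hk1 hk2
      by_contra hc
      push Not at hc
      apply htE
      unfold EX
      rw [mem_filter]
      refine ⟨hbox, Or.inr ⟨(k1, k2), ?_, hc⟩⟩
      rw [mem_product]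
      unfold kJ
      rw [mem_Icc, mem_Icc]
      exact ⟨abs_le.1 hk1, abs_le.1 hk2⟩
    obtain ⟨S, hS⟩ := exists_facP ha hΔ' hadm'
    refine ⟨S, ?_, ?_⟩
    · have : (fun p : Nat.Primes => facP a h (p : ℕ)) = (fun p : Nat.Primes => facP a h' (p : ℕ)) := by
        funext p
        unfold facP
        rw [hnu p p.2]
      rw [this]
      exact hS
    · intro u v hu hv hW hpos
      have h1 := hQ2 Q (by omega) A hAQ N hN1 hN2 B j1 g hw hj12 hg0 hg1 ε' hBs hε1 hε2 hε' hθq a h' ha haA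
        hh'b hΔ' hadm' hDI S hS (u - t) (v - t)
        (by linarith) (by linarith) (by
          have e1 : v - t - (u - t) = v - u := by ring
          rw [e1]
          refine le_trans ?_ hW
          have e2 : (N : ℝ) ^ (1 - δ) = N / (N : ℝ) ^ δ := by rw [Real.rpow_sub hN0, Real.rpow_one]
          rw [e2, ← hq]
          exact div_le_div_of_nonneg_left hN0.le hNδ0 hNδ) (by
          intro n hn i
          rw [mem_Ico] at hn
          have e1 : a i * n + h' i = a i * (n + t) + h i := by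
            rw [hh']; simp only [Pi.add_apply, Pi.smul_apply, smul_eq_mul]; ring
          rw [e1]
          exact hpos (n + t) (mem_Ico.2 ⟨by omega, by omega⟩) i)
      have e1 : v - t - (u - t) = v - u := by ring
      rw [e1] at h1
      rw [pc_translate a h t u v, ← hh']
      exact h1

end Pool.Agent.Helper86.UA
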