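import Pool.Agent.Helper86.UA.U5
import Pool.Agent.Helper86.DZ.F4

set_option autoImplicit false

/-!
# Uniformity in the coefficients: every scale
-/

open Finset Filter Topology

namespace Pool.Agent.Helper86.UA

open Pool.Agent.H807R2.Dav hiding KK
open Pool.Agent.Helper86.PS
open Pool.Agent.Helper86.XS
open Pool.Agent.Helper86.DZ

lemma scale_A {s A L2 N Q : ℕ} (hL2 : 0 < L2) (h : (A + 1) ^ (64 * (s + 2) ^ 2 * L2) ≤ N) (hN : N ≤ Q ^ L2) :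
    (A + 1) ^ (64 * (s + 2) ^ 2) ≤ Q ∧ 4 * A + 1 ≤ Q := by
  have h1 : (A + 1) ^ (64 * (s + 2) ^ 2) ≤ Q := by
    rw [pow_mul] at h
    exact (Nat.pow_le_pow_iff_left hL2.ne').1 (h.trans hN)
  refine ⟨h1, ?_⟩
  have h2 := AS_pow h1 (n := 3) (by
    have : 0 < (s + 2) ^ 2 := by positivity
    omega)
  have h3 : 4 * A + 1 ≤ (A + 1) ^ 3 := by
    have e1 : (A + 1) ^ 3 = A * (A * A) + 3 * (A * A) + 3 * A + 1 := by ring
    have e2 : A ≤ A * A := Nat.le_mul_self A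
    rw [e1]
    omega
  exact h3.trans h2

/-- **the asymptotic formula at every scale**, with at most one exceptional modulus -/
theorem everyU (s : ℕ) (hs : 1 ≤ s) {ε : ℝ} (hε : 0 < ε) :
    ∃ D : ℕ, 0 < D ∧ ∃ K : ℕ, 0 < K ∧ ∃ δ : ℝ, 0 < δ ∧ ∀ B : ℕ, ∃ N0 : ℕ, ∀ N : ℕ, N0 ≤ N →
    ∃ r : ℕ, Real.log N ^ B ≤ r ∧ ∀ A : ℕ, 1 ≤ A → (A + 1) ^ K ≤ N →
      PSPX s A ε δ (fun a h => ¬ (r : ℤ) ∣ (D : ℤ) * (Del a h * ∏ i, a i)) N := by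
  classical
  have hsr : (1 : ℝ) ≤ s := by exact_mod_cast hs
  obtain ⟨ε0, hε0d⟩ : ∃ ε0 : ℝ, ε0 = min ε 1 := ⟨_, rfl⟩
  have hε00 : 0 < ε0 := by rw [hε0d]; exact lt_min hε one_pos
  have hε01 : ε0 ≤ 1 := by rw [hε0d]; exact min_le_right _ _
  have hε0ε : ε0 ≤ ε := by rw [hε0d]; exact min_le_left _ _
  obtain ⟨E1, hE1⟩ := short_X
  obtain ⟨E2, hE2⟩ := unique_exc
  obtain ⟨E3, hE3⟩ := small_level
  obtain ⟨E, hE⟩ : ∃ E : ℕ, E = E1 + E2 + E3 := ⟨_, rfl⟩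
  obtain ⟨ε', hε'⟩ : ∃ ε' : ℝ, ε' = ε0 / (80 * s * 4 ^ s) := ⟨_, rfl⟩
  have h4s : (1 : ℝ) ≤ 4 ^ s := one_le_pow₀ (by norm_num)
  have hε'0 : 0 < ε' := by rw [hε']; positivity
  have hε'1 : ε' ≤ 1 := by
    rw [hε', div_le_one (by positivity)]
    have : 1 ≤ (s : ℝ) * 4 ^ s := one_le_mul_of_one_le_of_one_le hsr h4s
    linarith
  have hpow : (3 + ε') ^ s - 3 ^ s ≤ ε0 / 80 := by
    refine (pow_three_small hε'0.le hε'1 s).trans (le_of_eq ?_)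
    rw [hε']
    field_simp
  obtain ⟨L0, Q1, hQ1⟩ := hE1 E (by omega) ε' hε'0
  obtain ⟨k1, hk1⟩ := exists_nat_ge (160 * (s : ℝ) / ε0)
  obtain ⟨L1, hL1⟩ : ∃ L1 : ℕ, L1 = lE s + k1 + L0 + 6 := ⟨_, rfl⟩
  obtain ⟨L2, hL2⟩ : ∃ L2 : ℕ, L2 = 2 * L1 := ⟨_, rfl⟩
  have hL1κ : 160 * (s : ℝ) ≤ ε0 * L1 := by
    have h1 : (k1 : ℝ) ≤ L1 := by exact_mod_cast (by omega : k1 ≤ L1)
    have h2 := hk1.trans h1
    rw [div_le_iff₀ hε00] at h2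
    linarith
  obtain ⟨Q2, hQ2⟩ := fixed_scaleXU s hs hε00 hε01 L1 L2 (by omega) hL1κ (by omega)
  obtain ⟨Q3, hQ3⟩ := hx_of_short (L0 := L0) (L2 := L2 + 1)
  obtain ⟨kk, hkk⟩ := exists_nat_ge ((4 * (s : ℝ) / (ε0 / 10 / (8 * 3 ^ s))) ^ 2)
  obtain ⟨K0, hK0⟩ : ∃ K0 : ℕ, K0 = 8 + 2 * s + kk := ⟨_, rfl⟩
  have hKρ : (4 * (s : ℝ) / (ε0 / 10 / (8 * 3 ^ s))) ^ 2 ≤ K0 :=
    hkk.trans (by exact_mod_cast (by omega : kk ≤ K0))
  refine ⟨K0.factorial, Nat.factorial_pos K0, 64 * (s + 2) ^ 2 * L2, by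
    have : 0 < L2 := by omega
    positivity, 1 / (64 * L2), by
    have : (0 : ℝ) < L2 := by exact_mod_cast (by omega : 0 < L2)
    positivity, fun B => ?_⟩
  obtain ⟨Q4, hQ4⟩ := hE3 E (by omega) 44 (by norm_num) (B + 1)
  obtain ⟨Q5, hQ5⟩ := exists_nat_ge (Real.exp ((2 * (L1 : ℝ)) ^ B))
  obtain ⟨Qa, hQa⟩ : ∃ Qa : ℕ, Qa = Q1 + Q2 + Q3 + Q4 + Q5 + 3 := ⟨_, rfl⟩
  refine ⟨Qa ^ L1, fun N hN => ?_⟩
  obtain ⟨Q, hQQ, hN1, hN2⟩ := exists_Q (by omega) (by omega) hN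
  rw [← hL2] at hN2
  have hQ3n : 3 ≤ Q := by omega
  have hQ3r : (3 : ℝ) ≤ Q := by exact_mod_cast hQ3n
  have hQ0 : (0 : ℝ) < Q := by linarith
  obtain ⟨X, hX⟩ : ∃ X : Finset PC, X = (fam Q).filter (fun j => ¬ NX 44 E Q j.2) := ⟨_, rfl⟩
  have hX1 : X ⊆ fam Q := by rw [hX]; exact filter_subset _ _
  have hXe : ∀ j ∈ X, j ∈ fam Q ∧ ¬ NX 44 E Q j.2 := by
    intro j hj
    rw [hX, mem_filter] at hj
    exact hj
  have hX2 : X.card ≤ 1 := card_le_one.2 fun j hj l hl =>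
    hE2 E (by omega) 44 Q (by norm_num) hQ3n j (hXe j hj).1 l (hXe l hl).1 (hXe j hj).2 (hXe l hl).2
  have hX3 : ∀ j ∈ X, j.2 ≠ 1 ∧ j.2 ^ 2 = 1 := by
    intro j hj
    have h1 := (hXe j hj).2
    unfold NX at h1
    push Not at h1
    exact ⟨h1.1, h1.2.1⟩
  obtain ⟨b, hb0, hbs, hb⟩ := hQ1 Q (by omega)
  have hp' : ∀ A : ℕ, 1 ≤ A → (A + 1) ^ (64 * (s + 2) ^ 2 * L2) ≤ N →
      PSPX s A ε (1 / (64 * L2)) (fun a h => ∀ j ∈ X, ¬ ((j.1 + 1 : ℕ) : ℤ) ∣ (K0.factorial : ℤ) * (Del a h * ∏ i, a i)) N := by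
    intro A hA hAN
    obtain ⟨hAQ, hA4⟩ := scale_A (L2 := L2) (by omega) hAN hN2
    have hNM : N ≤ (4 * A + 1) * N := Nat.le_mul_of_pos_left N (by omega)
    have hw := hQ3 Q (by omega) X hX1 hX2 (fun j hj => (hX3 j hj).1) b hb0 (hbs.trans hε'1) (by
      intro j hj hjX
      apply hb j hj
      by_contra hc
      apply hjX
      rw [hX, mem_filter]
      exact ⟨hj, hc⟩) ((4 * A + 1) * N)
      (((Nat.pow_le_pow_right (by omega) (by omega : L0 + 6 ≤ L1)).trans hN1).trans hNM) (by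
        calc (4 * A + 1) * N ≤ Q * Q ^ L2 := Nat.mul_le_mul hA4 hN2
          _ = Q ^ (L2 + 1) := by ring)
    have hp := hQ2 Q (by omega) A hA hAQ N hN1 hN2 b X hw (fun j hj => (hX3 j hj).2) ε' hbs hpow hε'1 K0 (by omega) (by omega)
      hKρ
    exact PSPX_eps hε00 hε0ε hp
  rcases X.eq_empty_or_nonempty with hXE | hXne
  · obtain ⟨r, hr⟩ := exists_nat_ge (Real.log N ^ B)
    refine ⟨r, hr, fun A hA hAN => PSPX_mono (fun a h _ => ?_) (hp' A hA hAN)⟩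
    intro j hj
    rw [hXE] at hj
    exact absurd hj (notMem_empty j)
  · obtain ⟨j1, hj1⟩ := hXne
    refine ⟨j1.1 + 1, ?_, fun A hA hAN => PSPX_mono (fun a h hnd => ?_) (hp' A hA hAN)⟩
    · obtain ⟨ℓ, hℓ⟩ : ∃ ℓ : ℝ, ℓ = Real.log Q := ⟨_, rfl⟩
      have hlev : Real.log Q ^ (B + 1) ≤ ((j1.1 + 1 : ℕ) : ℝ) := by
        by_contra hc
        push Not at hc
        have hprim := (mem_fam.1 (hXe j1 hj1).1).2
        exact (hXe j1 hj1).2 (hQ4 Q (by omega) (j1.1 + 1) hc.le j1.2 hprim)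
      have hN0 : (0 : ℝ) < N := by
        have : 0 < N := lt_of_lt_of_le (by positivity) hN1
        exact_mod_cast this
      have hlN : Real.log N ≤ 2 * L1 * ℓ := by
        have h1 : Real.log N ≤ Real.log ((Q : ℝ) ^ L2) := Real.log_le_log hN0 (by exact_mod_cast hN2)
        rw [Real.log_pow, ← hℓ, hL2] at h1
        push_cast at h1
        exact h1
      have hℓ2 : (2 * (L1 : ℝ)) ^ B ≤ ℓ := by
        rw [hℓ, Real.le_log_iff_exp_le hQ0]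
        exact hQ5.trans (by exact_mod_cast (by omega : Q5 ≤ Q))
      have hℓ0 : 0 ≤ ℓ := le_trans (by positivity) hℓ2
      calc Real.log N ^ B ≤ (2 * L1 * ℓ) ^ B := pow_le_pow_left₀ (Real.log_natCast_nonneg N) hlN B
        _ = (2 * (L1 : ℝ)) ^ B * ℓ ^ B := by rw [mul_pow]
        _ ≤ ℓ * ℓ ^ B := mul_le_mul_of_nonneg_right hℓ2 (by positivity)
        _ = ℓ ^ (B + 1) := by ring
        _ ≤ _ := by rw [hℓ]; exact hlev
    · intro j hj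
      have : j = j1 := card_le_one.1 hX2 j hj j1 hj1
      rw [this]
      exact hnd

/-- **the lower bound at every scale** -/
theorem everyLU (s : ℕ) (hs : 1 ≤ s) :
    ∃ K : ℕ, 0 < K ∧ ∃ δ : ℝ, 0 < δ ∧ ∃ c : ℝ, 0 < c ∧ ∀ κ : ℝ, 0 < κ → ∃ N0 : ℕ, ∀ N : ℕ, N0 ≤ N →
    ∃ θ : ℝ, (N : ℝ) ^ (-κ) ≤ θ ∧ θ ≤ 1 ∧ ∀ A : ℕ, 1 ≤ A → (A + 1) ^ K ≤ N → PSPL s A (c * θ ^ s) δ N := by
  classical
  have hsr : (1 : ℝ) ≤ s := by exact_mod_cast hs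
  obtain ⟨ε0, hε0d⟩ : ∃ ε0 : ℝ, ε0 = 1 / 2 := ⟨_, rfl⟩
  have hε00 : 0 < ε0 := by rw [hε0d]; norm_num
  have hε01 : ε0 ≤ 1 := by rw [hε0d]; norm_num
  obtain ⟨θ0, hθ00, hθ08, Ld, hd⟩ := hd_main (s + 1) (by omega)
  have h32 : (1 : ℝ) ≤ 32 ^ s := one_le_pow₀ (by norm_num)
  obtain ⟨θ1, hθ1⟩ : ∃ θ1 : ℝ, θ1 = min θ0 (1 / (32 * s * 32 ^ s)) := ⟨_, rfl⟩
  have hθ10 : 0 < θ1 := by rw [hθ1]; exact lt_min hθ00 (by positivity)
  have hθ11 : θ1 ≤ θ0 := by rw [hθ1]; exact min_le_left _ _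
  have hθ12 : θ1 ≤ 1 / (32 * s * 32 ^ s) := by rw [hθ1]; exact min_le_right _ _
  obtain ⟨E0, hE0⟩ := exc_zero θ1 hθ10
  obtain ⟨E1, hE1⟩ := short_X
  obtain ⟨E2, hE2⟩ := unique_exc
  obtain ⟨E, hE⟩ : ∃ E : ℕ, E = E0 + E1 + E2 := ⟨_, rfl⟩
  obtain ⟨ε', hε'⟩ : ∃ ε' : ℝ, ε' = ε0 / (80 * s * 4 ^ s) := ⟨_, rfl⟩
  have h4s : (1 : ℝ) ≤ 4 ^ s := one_le_pow₀ (by norm_num)
  have hε'0 : 0 < ε' := by rw [hε']; positivity
  have hε'1 : ε' ≤ 1 := by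
    rw [hε', div_le_one (by positivity)]
    have : 1 ≤ (s : ℝ) * 4 ^ s := one_le_mul_of_one_le_of_one_le hsr h4s
    linarith
  have hpow : (3 + ε') ^ s - 3 ^ s ≤ ε0 / 80 := by
    refine (pow_three_small hε'0.le hε'1 s).trans (le_of_eq ?_)
    rw [hε']
    field_simp
  obtain ⟨L0, Q1, hQ1⟩ := hE1 E (by omega) ε' hε'0
  obtain ⟨k1, hk1⟩ := exists_nat_ge (160 * (s : ℝ) / ε0)
  obtain ⟨L1, hL1⟩ : ∃ L1 : ℕ, L1 = lE s + k1 + L0 + Ld + 6 := ⟨_, rfl⟩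
  obtain ⟨L2, hL2⟩ : ∃ L2 : ℕ, L2 = 2 * L1 := ⟨_, rfl⟩
  have hL1κ : 160 * (s : ℝ) ≤ ε0 * L1 := by
    have h1 : (k1 : ℝ) ≤ L1 := by exact_mod_cast (by omega : k1 ≤ L1)
    have h2 := hk1.trans h1
    rw [div_le_iff₀ hε00] at h2
    linarith
  obtain ⟨Q2, hQ2⟩ := fixed_scaleXU s hs hε00 hε01 L1 L2 (by omega) hL1κ (by omega)
  obtain ⟨Q3, hQ3⟩ := hx_of_short (L0 := L0) (L2 := L2 + 1)
  obtain ⟨Q4, hQ4⟩ := fixed_scaleLU s hs L1 L2 (by omega) (by omega)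
  obtain ⟨Q5, hQ5⟩ := hd (L2 + 1)
  obtain ⟨kk, hkk⟩ := exists_nat_ge ((4 * (s : ℝ) / (ε0 / 10 / (8 * 3 ^ s))) ^ 2)
  obtain ⟨K0, hK0⟩ : ∃ K0 : ℕ, K0 = 8 + 2 * s + kk := ⟨_, rfl⟩
  have hKρ : (4 * (s : ℝ) / (ε0 / 10 / (8 * 3 ^ s))) ^ 2 ≤ K0 :=
    hkk.trans (by exact_mod_cast (by omega : kk ≤ K0))
  refine ⟨64 * (s + 2) ^ 2 * L2, by
    have : 0 < L2 := by omega
    positivity, 1 / (64 * L2), by
    have : (0 : ℝ) < L2 := by exact_mod_cast (by omega : 0 < L2)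
    positivity, 1 / (8 ^ s * 2 ^ (s + 3)), by positivity, fun κ hκ => ?_⟩
  obtain ⟨Q6, hQ6⟩ := siegel_scale s hκ
  obtain ⟨Qa, hQa⟩ : ∃ Qa : ℕ, Qa = Q1 + Q2 + Q3 + Q4 + Q5 + Q6 + 3 := ⟨_, rfl⟩
  refine ⟨Qa ^ L1, fun N hN => ?_⟩
  obtain ⟨Q, hQQ, hN1, hN2⟩ := exists_Q (by omega) (by omega) hN
  rw [← hL2] at hN2
  have hQ3n : 3 ≤ Q := by omega
  have hQ3r : (3 : ℝ) ≤ Q := by exact_mod_cast hQ3n
  have hQ0 : (0 : ℝ) < Q := by linarith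
  obtain ⟨X, hX⟩ : ∃ X : Finset PC, X = (fam Q).filter (fun j => ¬ NX 44 E Q j.2) := ⟨_, rfl⟩
  have hX1 : X ⊆ fam Q := by rw [hX]; exact filter_subset _ _
  have hXe : ∀ j ∈ X, j ∈ fam Q ∧ ¬ NX 44 E Q j.2 := by
    intro j hj
    rw [hX, mem_filter] at hj
    exact hj
  have hX2 : X.card ≤ 1 := card_le_one.2 fun j hj l hl =>
    hE2 E (by omega) 44 Q (by norm_num) hQ3n j (hXe j hj).1 l (hXe l hl).1 (hXe j hj).2 (hXe l hl).2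
  have hX3 : ∀ j ∈ X, j.2 ≠ 1 ∧ j.2 ^ 2 = 1 := by
    intro j hj
    have h1 := (hXe j hj).2
    unfold NX at h1
    push Not at h1
    exact ⟨h1.1, h1.2.1⟩
  have hN1n : 1 ≤ N := le_trans (Nat.one_le_pow _ _ (by omega)) hN1
  have hN1r : (1 : ℝ) ≤ N := by exact_mod_cast hN1n
  rcases X.eq_empty_or_nonempty with hXE | hXne
  · obtain ⟨b, hb0, hbs, hb⟩ := hQ1 Q (by omega)
    refine ⟨1, Real.rpow_le_one_of_one_le_of_nonpos hN1r (by linarith), le_rfl, fun A hA hAN => ?_⟩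
    obtain ⟨hAQ, hA4⟩ := scale_A (L2 := L2) (by omega) hAN hN2
    have hNM : N ≤ (4 * A + 1) * N := Nat.le_mul_of_pos_left N (by omega)
    have hMup : (4 * A + 1) * N ≤ Q ^ (L2 + 1) := by
      calc (4 * A + 1) * N ≤ Q * Q ^ L2 := Nat.mul_le_mul hA4 hN2
        _ = Q ^ (L2 + 1) := by ring
    have hw := hQ3 Q (by omega) X hX1 hX2 (fun j hj => (hX3 j hj).1) b hb0 (hbs.trans hε'1) (by
      intro j hj hjX
      apply hb j hj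
      by_contra hc
      apply hjX
      rw [hX, mem_filter]
      exact ⟨hj, hc⟩) ((4 * A + 1) * N)
      (((Nat.pow_le_pow_right (by omega) (by omega : L0 + 6 ≤ L1)).trans hN1).trans hNM) hMup
    have hp := hQ2 Q (by omega) A hA hAQ N hN1 hN2 b X hw (fun j hj => (hX3 j hj).2) ε' hbs hpow hε'1 K0 (by omega) (by omega)
      hKρ
    rw [hε0d] at hp
    apply PSPL_of_PSPX _ (PSPX_mono (fun a h _ => ?_) hp)
    · rw [one_pow, mul_one]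
      apply div_le_div_of_nonneg_left (by norm_num) (by norm_num)
      have h8 : (1 : ℝ) ≤ 8 ^ s := one_le_pow₀ (by norm_num)
      have h2 : (2 : ℝ) ≤ 2 ^ (s + 3) := by
        calc (2 : ℝ) = 2 ^ 1 := by norm_num
          _ ≤ 2 ^ (s + 3) := pow_le_pow_right₀ (by norm_num) (by omega)
      calc (2 : ℝ) = 1 * 2 := by norm_num
        _ ≤ 8 ^ s * 2 ^ (s + 3) := mul_le_mul h8 h2 (by norm_num) (by positivity)
    · intro j hj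
      rw [hXE] at hj
      exact absurd hj (notMem_empty j)
  · obtain ⟨j1, hj1⟩ := hXne
    obtain ⟨hjf, hjn⟩ := hXe j1 hj1
    obtain ⟨hj11, hj12⟩ := hX3 j1 hj1
    have hjm := mem_fam.1 hjf
    obtain ⟨b, hb1, hLb, hθb⟩ := hE0 E (by omega) 44 Q (by norm_num) hQ3n (j1.1 + 1) hjm.1 j1.2 hjn
    obtain ⟨g1, g2, g3⟩ := hQ6 Q (by omega) j1 hjf hj11 hj12 b hb1 hLb
    obtain ⟨θ, hθ⟩ : ∃ θ : ℝ, θ = (1 - b) * Real.log Q := ⟨_, rfl⟩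
    have hθle1 : θ ≤ 1 := by rw [hθ]; linarith
    have hd1 := hQ5 Q (by omega) j1 hjf hj11 hj12 b hb1 hLb (hθb.trans hθ11) (g2 (by rw [← hθ]; exact hθle1))
    rw [← hθ] at g1 g3 hθb hd1
    have hθ0 : 0 < θ := lt_of_lt_of_le (Real.rpow_pos_of_pos hQ0 _) g1
    obtain ⟨B, hBs, hB⟩ := hd1
    have hθs : θ ≤ 1 / (32 * s * 32 ^ s) := hθb.trans hθ12
    rw [le_div_iff₀ (by positivity)] at hθs
    -- `32 s 32^s θ ≤ 1`
    have hθ1024 : 1024 * θ ≤ 1 := by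
      have h1 : (32 : ℝ) ≤ 32 ^ s := by
        calc (32 : ℝ) = 32 ^ 1 := by norm_num
          _ ≤ 32 ^ s := pow_le_pow_right₀ (by norm_num) hs
      have h2 : (1024 : ℝ) ≤ 32 * s * 32 ^ s := by
        calc (1024 : ℝ) = 32 * 1 * 32 := by norm_num
          _ ≤ 32 * s * 32 ^ s := mul_le_mul (mul_le_mul_of_nonneg_left hsr (by norm_num)) h1 (by norm_num) (by positivity)
      have h3 : 1024 * θ ≤ 32 * s * 32 ^ s * θ := mul_le_mul_of_nonneg_right h2 hθ0.le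
      linarith
    have hθs1 : θ ^ s ≤ θ := by
      calc θ ^ s ≤ θ ^ 1 := pow_le_pow_of_le_one hθ0.le hθle1 hs
        _ = θ := pow_one θ
    have hθs0 : 0 < θ ^ s := by positivity
    have hε2 : 2 * (2 * θ ^ (s + 1)) ≤ θ / 4 := by
      rw [pow_succ]
      have : θ ^ s * θ ≤ θ * θ := mul_le_mul_of_nonneg_right hθs1 hθ0.le
      nlinarith
    have hε1 : 2 * θ ^ (s + 1) ≤ 1 := by linarith
    have hε3 : (3 + 2 * θ ^ (s + 1)) ^ s - 3 ^ s ≤ (θ / 4 / 2) ^ s / 16 := by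
      refine (pow_three_small (by positivity) hε1 s).trans ?_
      have f2 : (θ / 4 / 2) ^ s = θ ^ s / 8 ^ s := by
        rw [div_div, div_pow]
        norm_num
      rw [f2, div_div, le_div_iff₀ (by positivity)]
      calc (s : ℝ) * (2 * θ ^ (s + 1)) * 4 ^ s * (8 ^ s * 16) = θ ^ s * (θ * (32 * s * (4 ^ s * 8 ^ s))) := by ring
        _ = θ ^ s * (θ * (32 * s * 32 ^ s)) := by
            rw [← mul_pow]
            norm_num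
        _ ≤ θ ^ s * 1 := mul_le_mul_of_nonneg_left hθs hθs0.le
        _ = θ ^ s := mul_one _
    refine ⟨θ, ?_, hθle1, fun A hA hAN => ?_⟩
    · refine le_trans ?_ g1
      apply Real.rpow_le_rpow_of_nonpos hQ0 _ (by linarith)
      exact_mod_cast (Nat.le_self_pow (by omega) Q).trans hN1
    · obtain ⟨hAQ, hA4⟩ := scale_A (L2 := L2) (by omega) hAN hN2
      have hNM : N ≤ (4 * A + 1) * N := Nat.le_mul_of_pos_left N (by omega)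
      have hMup : (4 * A + 1) * N ≤ Q ^ (L2 + 1) := by
        calc (4 * A + 1) * N ≤ Q * Q ^ L2 := Nat.mul_le_mul hA4 hN2
          _ = Q ^ (L2 + 1) := by ring
      have hHD := hB ((4 * A + 1) * N)
        (((Nat.pow_le_pow_right (by omega) (by omega : Ld + 6 ≤ L1)).trans hN1).trans hNM) hMup
      have hp := hQ4 Q (by omega) A hA hAQ N hN1 hN2 B j1 (θ / 4) hHD hj12 (by positivity) (by linarith) (2 * θ ^ (s + 1)) hBs
        hε1 hε2 hε3 g3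
      have e1 : 1 / (8 ^ s * 2 ^ (s + 3)) * θ ^ s = (θ / 4 / 2) ^ s / 2 ^ (s + 3) := by
        have f2 : (θ / 4 / 2) ^ s = θ ^ s / 8 ^ s := by
          rw [div_div, div_pow]
          norm_num
        rw [f2]
        field_simp
      rw [e1]
      exact hp

end Pool.Agent.Helper86.UA
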