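import Pool.Agent.Helper86.XS.Y8
import Pool.Agent.Helper86.DZ.F3

set_option autoImplicit false

/-!
# Uniformity in the coefficients: the truncation error and the singular series
-/

open Finset Filter Topology

namespace Pool.Agent.Helper86.UA

open Pool.Agent.H807R2.Dav hiding KK
open Pool.Agent.Helper86.PS
open Pool.Agent.Helper86.XS
open Pool.Agent.Helper86.DZ

lemma AS_pow {A K Q n : ℕ} (h : (A + 1) ^ K ≤ Q) (hn : n ≤ K) : (A + 1) ^ n ≤ Q :=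
  (Nat.pow_le_pow_right (by omega) hn).trans h

lemma AS_qq {A m Q n : ℕ} (h : (A + 1) ^ (64 * m) ≤ Q) (hn : n ≤ m) : ((A : ℝ) + 1) ^ n ≤ qq Q := by
  have h1 : (A + 1) ^ (64 * n) ≤ Q := AS_pow h (by omega)
  have h2 : (((A : ℝ) + 1) ^ n) ^ 64 ≤ Q := by
    rw [← pow_mul, mul_comm]
    exact_mod_cast h1
  unfold qq
  have h3 : ∀ x : ℝ, 0 ≤ x → (x ^ 64) ^ (1 / 64 : ℝ) = x := by
    intro x hx
    have := Real.pow_rpow_inv_natCast hx (n := 64) (by norm_num)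
    rw [one_div]
    exact_mod_cast this
  rw [← h3 (((A : ℝ) + 1) ^ n) (by positivity)]
  exact Real.rpow_le_rpow (by positivity) h2 (by norm_num)

lemma le_of_sq_le_sq' {x y : ℝ} (h : x ^ 2 ≤ y ^ 2) (hy : 0 ≤ y) : x ≤ y := abs_le_of_sq_le_sq' h hy |>.2

lemma tau_smallU (s : ℕ) (hs : 1 ≤ s) (L2 : ℕ) {Z : ℝ} (hZ0 : 0 ≤ Z) : ∃ Q0 : ℕ, ∀ Q : ℕ, Q0 ≤ Q →
    ∀ A : ℕ, (A + 1) ^ (64 * (s + 2) ^ 2) ≤ Q → ∀ M : ℕ, Q ≤ M → M ≤ Q ^ L2 →
    ∀ a h : Fin s → ℤ, (∀ i, |a i| ≤ A) → (∀ i, |h i| ≤ M) → Del a h ≠ 0 →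
    tau s Q (Q ^ cR s) (∏ i, (a i).natAbs) Z (Del a h).natAbs ≤ 1 / Q := by
  have hsr : (1 : ℝ) ≤ s := by exact_mod_cast hs
  obtain ⟨Cs, hCs⟩ : ∃ Cs : ℝ, Cs = 2 ^ s * (4 * (s + 1)) := ⟨_, rfl⟩
  have hCs0 : 0 < Cs := by rw [hCs]; positivity
  obtain ⟨x0, hx0⟩ := sqrt_ev (2 * (Cs * 2 * √(6 * (s : ℝ) ^ 2 * L2))) (2 * (Cs * Z))
  obtain ⟨Q1, hQ1⟩ := exists_nat_ge (Real.exp (max x0 1))
  refine ⟨Q1 + 3, fun Q hQ A hAQ M hQM hM a h ha hh hΔ => ?_⟩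
  have hAQ1 : A + 1 ≤ Q := by
    have := AS_pow hAQ (n := 1) (Nat.succ_le_of_lt (by positivity))
    rwa [pow_one] at this
  have hQ3 : (3 : ℝ) ≤ Q := by exact_mod_cast (by omega : 3 ≤ Q)
  have hQ0 : (0 : ℝ) < Q := by linarith
  have hQ1' : (1 : ℝ) ≤ Q := by linarith
  obtain ⟨ℓ, hℓ⟩ : ∃ ℓ : ℝ, ℓ = Real.log Q := ⟨_, rfl⟩
  have hℓx : max x0 1 ≤ ℓ := by
    rw [hℓ, Real.le_log_iff_exp_le hQ0]
    exact hQ1.trans (by exact_mod_cast (by omega : Q1 ≤ Q))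
  have hℓ1 : 1 ≤ ℓ := (le_max_right _ _).trans hℓx
  have hM0 : (0 : ℝ) < M := by exact_mod_cast (by omega : 0 < M)
  have hlM : Real.log M ≤ L2 * ℓ := by
    have : Real.log M ≤ Real.log ((Q : ℝ) ^ L2) := Real.log_le_log hM0 (by exact_mod_cast hM)
    rwa [Real.log_pow, ← hℓ] at this
  have hl1 : 1 ≤ L2 * ℓ := by
    refine le_trans (hℓ1.trans ?_) hlM
    rw [hℓ]
    exact Real.log_le_log hQ0 (by exact_mod_cast hQM)
  have hD1 : 1 ≤ (Del a h).natAbs := Int.natAbs_pos.2 hΔ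
  have hlog2 : (Nat.log 2 (Del a h).natAbs : ℝ) ≤ 6 * (s : ℝ) ^ 2 * L2 * ℓ := by
    have e1 := log2_le hD1
    have e2 : ((Del a h).natAbs : ℝ) ≤ (2 * (M : ℝ) ^ 2) ^ (s * s) := by
      have hAM : A ≤ M := by omega
      have := Del_le (X := M) (by omega) (fun i => (ha i).trans (by exact_mod_cast hAM)) hh
      exact_mod_cast this
    have e3 : Real.log ((Del a h).natAbs : ℝ) ≤ (s * s) * (Real.log 2 + 2 * Real.log M) := by
      refine (Real.log_le_log (by exact_mod_cast hD1) e2).trans (le_of_eq ?_)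
      rw [Real.log_pow, Real.log_mul (by norm_num) (by positivity), Real.log_pow]
      push_cast
      ring
    have e4 : Real.log 2 ≤ 1 := by linarith [Real.log_two_lt_d9]
    have e5 : Real.log 2 + 2 * Real.log M ≤ 3 * (L2 * ℓ) := by linarith
    calc (Nat.log 2 (Del a h).natAbs : ℝ) ≤ 2 * ((s * s) * (Real.log 2 + 2 * Real.log M)) := e1.trans (by linarith)
      _ ≤ 2 * ((s * s) * (3 * (L2 * ℓ))) := by gcongr
      _ = _ := by ring
  have hsq : √(Nat.log 2 (Del a h).natAbs : ℝ) ≤ √(6 * (s : ℝ) ^ 2 * L2) * √ℓ := by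
    rw [← Real.sqrt_mul (by positivity)]
    exact Real.sqrt_le_sqrt hlog2
  have hA' : ((∏ i, (a i).natAbs : ℕ) : ℝ) ≤ ((A : ℝ) + 1) ^ s := by
    have e1 : ∏ i, (a i).natAbs ≤ ∏ _i : Fin s, (A + 1) := by
      apply Finset.prod_le_prod'
      intro i _
      have e2 := ha i
      rw [Int.abs_eq_natAbs] at e2
      have e3 : (a i).natAbs ≤ A := by exact_mod_cast e2
      omega
    rw [prod_const, card_univ, Fintype.card_fin] at e1
    exact_mod_cast e1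
  unfold tau
  have hRθ : ((Q ^ cR s : ℕ) : ℝ) ^ (1 / (2 * s) : ℝ) = (Q : ℝ) ^ (s * (s + 1) + 2) := by
    push_cast
    rw [← Real.rpow_natCast, ← Real.rpow_mul hQ0.le, ← Real.rpow_natCast]
    congr 1
    unfold cR
    push_cast
    field_simp
  rw [hRθ, ← hCs]
  have hexp : Real.exp (Cs * (Z + 2 * √(Nat.log 2 (Del a h).natAbs : ℝ))) * ((A : ℝ) + 1) ^ (s * (s + 1)) ≤ Q := by
    have e1 : ((A : ℝ) + 1) ^ (s * (s + 1)) ≤ Real.exp (ℓ / 2) := by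
      have f1 := AS_pow hAQ (n := 2 * (s * (s + 1))) (by nlinarith)
      have f2 : (((A : ℝ) + 1) ^ (s * (s + 1))) ^ 2 ≤ Real.exp (ℓ / 2) ^ 2 := by
        rw [← pow_mul, ← Real.exp_nat_mul]
        have f3 : ((2 : ℕ) : ℝ) * (ℓ / 2) = ℓ := by push_cast; ring
        rw [f3, hℓ, Real.exp_log hQ0, mul_comm]
        exact_mod_cast f1
      exact le_of_sq_le_sq' f2 (Real.exp_pos _).le
    have e3 := hx0 ℓ ((le_max_left _ _).trans hℓx)
    have e4 : Cs * (2 * √(Nat.log 2 (Del a h).natAbs : ℝ)) ≤ Cs * (2 * (√(6 * (s : ℝ) ^ 2 * L2) * √ℓ)) := by gcongr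
    have e5 : Real.exp (Cs * (Z + 2 * √(Nat.log 2 (Del a h).natAbs : ℝ))) ≤ Real.exp (ℓ / 2) := by
      apply Real.exp_le_exp.2
      linarith
    calc Real.exp (Cs * (Z + 2 * √(Nat.log 2 (Del a h).natAbs : ℝ))) * ((A : ℝ) + 1) ^ (s * (s + 1)) ≤
        Real.exp (ℓ / 2) * Real.exp (ℓ / 2) := mul_le_mul e5 e1 (by positivity) (Real.exp_pos _).le
      _ = Real.exp ℓ := by rw [← Real.exp_add]; congr 1; ring
      _ = Q := by rw [hℓ, Real.exp_log hQ0]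
  rw [div_le_div_iff₀ (by positivity) hQ0, one_mul]
  calc ((Q : ℝ) ^ s * ((∏ i, (a i).natAbs : ℕ) : ℝ)) ^ (s + 1) *
        Real.exp (Cs * (Z + 2 * √(Nat.log 2 (Del a h).natAbs : ℝ))) * Q ≤
      ((Q : ℝ) ^ s * ((A : ℝ) + 1) ^ s) ^ (s + 1) * Real.exp (Cs * (Z + 2 * √(Nat.log 2 (Del a h).natAbs : ℝ))) * Q := by gcongr
    _ = (Q : ℝ) ^ (s * (s + 1)) * (Real.exp (Cs * (Z + 2 * √(Nat.log 2 (Del a h).natAbs : ℝ))) *
        ((A : ℝ) + 1) ^ (s * (s + 1))) * Q := by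
          rw [mul_pow, ← pow_mul, ← pow_mul]; ring
    _ ≤ (Q : ℝ) ^ (s * (s + 1)) * Q * Q := by gcongr
    _ = _ := by ring

/-- the singular series is close to its truncation -/
lemma S_closeU (s : ℕ) (L2 : ℕ) {η : ℝ} (hη : 0 < η) : ∃ Q0 : ℕ, ∀ Q : ℕ, Q0 ≤ Q → ∀ A : ℕ, A + 1 ≤ Q →
    ∀ M : ℕ, 1 ≤ M → M ≤ Q ^ L2 →
    ∀ R : ℕ, Q ≤ R →
    ∀ a h : Fin s → ℤ, (∀ i, a i ≠ 0) → (∀ i, |a i| ≤ A) → (∀ i, |h i| ≤ M) → Del a h ≠ 0 →
    (∀ p : ℕ, p.Prime → nuP a h p < p) → ∀ S : ℝ, HasProd (fun p : Nat.Primes => facP a h (p : ℕ)) S →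
    |S - SPR R a h| ≤ η * SPR R a h := by
  obtain ⟨η', hη'⟩ : ∃ η' : ℝ, η' = min η 1 := ⟨_, rfl⟩
  have hη0 : 0 < η' := by rw [hη']; exact lt_min hη one_pos
  have hη1 : η' ≤ 1 := by rw [hη']; exact min_le_right _ _
  have hηη : η' ≤ η := by rw [hη']; exact min_le_left _ _
  obtain ⟨C, hC⟩ : ∃ C : ℝ, C = 2 * s * (2 * ((s * s + s : ℕ) : ℝ) * (1 + 2 * (L2 + 1))) := ⟨_, rfl⟩
  have hC0 : 0 ≤ C := by rw [hC]; positivity
  obtain ⟨Q1, hQ1⟩ := ev_log (2 * C / η') 1 (a := 1) one_pos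
  obtain ⟨Q2, hQ2⟩ := exists_nat_ge ((s : ℝ) ^ 2 / η')
  refine ⟨Q1 + Q2 + 2 * s + 3, fun Q hQ A hAQ M hM1 hM2 R hQR a h ha haA hh hΔ hadm S hS => ?_⟩
  have hQ3n : 3 ≤ Q := by omega
  have hQ3 : (3 : ℝ) ≤ Q := by exact_mod_cast hQ3n
  have hQ0 : (0 : ℝ) < Q := by linarith
  have hR1 : 1 ≤ R := by omega
  have hRr : (Q : ℝ) ≤ R := by exact_mod_cast hQR
  have hR0 : (0 : ℝ) < R := by linarith
  obtain ⟨ℓ, hℓ⟩ : ∃ ℓ : ℝ, ℓ = Real.log Q := ⟨_, rfl⟩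
  have hℓ1 : 1 ≤ ℓ := by
    rw [hℓ, Real.le_log_iff_exp_le hQ0]
    linarith [Real.exp_one_lt_d9]
  obtain ⟨n, hn⟩ : ∃ n : ℕ, n = (∏ i, (a i).natAbs) * (Del a h).natAbs := ⟨_, rfl⟩
  obtain ⟨X, hX⟩ : ∃ X : ℕ, X = A + M := ⟨_, rfl⟩
  have hX1 : 1 ≤ X := by omega
  have hn1 : n ≤ (2 * X ^ 2) ^ (s * s + s) := by
    rw [hn]
    apply n_le hX1
    · intro i
      refine (haA i).trans ?_
      exact_mod_cast (by omega : A ≤ X)
    · intro i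
      refine (hh i).trans ?_
      exact_mod_cast (by omega : M ≤ X)
  have hn0 : 1 ≤ n := by
    rw [hn]
    apply Nat.mul_pos
    · apply Finset.prod_pos
      intro i _
      exact Int.natAbs_pos.2 (ha i)
    · exact Int.natAbs_pos.2 hΔ
  have hX0 : (0 : ℝ) < X := by exact_mod_cast hX1
  have hlogX : Real.log X ≤ (L2 + 1) * ℓ := by
    have h1 : X ≤ Q ^ (L2 + 1) := by
      have hq : 1 ≤ Q ^ L2 := Nat.one_le_pow _ _ (by omega)
      calc X ≤ (A + 1) * Q ^ L2 := by nlinarith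
        _ ≤ Q * Q ^ L2 := Nat.mul_le_mul_right _ (by omega)
        _ = Q ^ (L2 + 1) := by ring
    have h2 : Real.log X ≤ Real.log ((Q : ℝ) ^ (L2 + 1)) := Real.log_le_log hX0 (by exact_mod_cast h1)
    rw [Real.log_pow, ← hℓ] at h2
    push_cast at h2
    exact h2
  have hlogn : (Nat.log 2 n : ℝ) ≤ 2 * ((s * s + s : ℕ) : ℝ) * (1 + 2 * (L2 + 1)) * ℓ := by
    have h1 := log2_le hn0
    have h2 : Real.log n ≤ Real.log (((2 * X ^ 2) ^ (s * s + s) : ℕ) : ℝ) :=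
      Real.log_le_log (by exact_mod_cast hn0) (by exact_mod_cast hn1)
    have h3 : Real.log (((2 * X ^ 2) ^ (s * s + s) : ℕ) : ℝ) = ((s * s + s : ℕ) : ℝ) * (Real.log 2 + 2 * Real.log X) := by
      push_cast
      rw [Real.log_pow, Real.log_mul (by norm_num) (by positivity), Real.log_pow]
      push_cast
      ring
    have h4 : Real.log 2 + 2 * Real.log X ≤ (1 + 2 * (L2 + 1)) * ℓ := by
      have : Real.log 2 ≤ 1 := by
        have := Real.log_two_lt_d9; linarith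
      nlinarith
    have h5 : ((s * s + s : ℕ) : ℝ) * (Real.log 2 + 2 * Real.log X) ≤ ((s * s + s : ℕ) : ℝ) * ((1 + 2 * (L2 + 1)) * ℓ) :=
      mul_le_mul_of_nonneg_left h4 (Nat.cast_nonneg _)
    calc (Nat.log 2 n : ℝ) ≤ 2 * Real.log n := h1
      _ ≤ 2 * (((s * s + s : ℕ) : ℝ) * ((1 + 2 * (L2 + 1)) * ℓ)) := by linarith
      _ = _ := by ring
  have hx : 2 * s * (Nat.log 2 n : ℝ) / R ≤ η' / 2 := by
    have h1 := hQ1 Q (by omega)
    rw [pow_one, Real.rpow_one, ← hℓ] at h1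
    have h2 : 2 * s * (Nat.log 2 n : ℝ) ≤ C * ℓ := by
      rw [hC]
      calc 2 * s * (Nat.log 2 n : ℝ) ≤ 2 * s * (2 * ((s * s + s : ℕ) : ℝ) * (1 + 2 * (L2 + 1)) * ℓ) := by gcongr
        _ = _ := by ring
    rw [div_le_iff₀ hR0]
    have h3 : C * ℓ ≤ η' / 2 * Q := by
      have e1 : 2 * C / η' * ℓ = (C * ℓ) * (2 / η') := by ring
      rw [e1] at h1
      have e2 : (C * ℓ) * (2 / η') * (η' / 2) = C * ℓ := by field_simp
      have e3 := mul_le_mul_of_nonneg_right h1 (by positivity : 0 ≤ η' / 2)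
      linarith
    have h4 : η' / 2 * Q ≤ η' / 2 * R := by gcongr
    linarith
  have hx0 : 0 ≤ 2 * s * (Nat.log 2 n : ℝ) / R := by positivity
  have hup : Real.exp (2 * s * Nat.log 2 n / R) ≤ 1 + η' := by
    have h1 : Real.exp (2 * s * (Nat.log 2 n : ℝ) / R) ≤ Real.exp (η' / 2) := Real.exp_le_exp.2 hx
    refine h1.trans ?_
    have h2 : Real.exp (η' / 2) ≤ (1 - η' / 2)⁻¹ := by
      have h3 := Real.add_one_le_exp (-(η' / 2))
      rw [Real.exp_neg] at h3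
      have h4 : 0 < 1 - η' / 2 := by linarith
      rw [le_inv_comm₀ (Real.exp_pos _) h4]
      linarith
    refine h2.trans ?_
    rw [inv_le_iff_one_le_mul₀ (by linarith)]
    nlinarith
  have hlo : 1 - η' ≤ 1 - (s : ℝ) ^ 2 / R := by
    have h1 : (s : ℝ) ^ 2 / R ≤ η' := by
      rw [div_le_iff₀ hR0]
      have h2 : (s : ℝ) ^ 2 / η' ≤ R := by
        refine hQ2.trans ((?_ : (Q2 : ℝ) ≤ Q).trans hRr)
        exact_mod_cast (by omega : Q2 ≤ Q)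
      rw [div_le_iff₀ hη0] at h2
      linarith
    linarith
  have h1 := S_near hS (R := R) (lo := 1 - η') (up := 1 + η') (by
    intro T hT
    constructor
    · exact hlo.trans (tail_lower hR1 (by omega) T fun p hp => ⟨(hT p hp).1, (hT p hp).2, hadm p (hT p hp).1⟩)
    · have := tail_upper ha hΔ hR1 (by omega : 2 * s ≤ R) T hT
      rw [← hn] at this
      exact this.trans hup)
  have h0 := SPR_nonneg R a h
  rw [abs_le]
  constructor <;> nlinarith [h1.1, h1.2]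

end Pool.Agent.Helper86.UA
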